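import Mathlib

set_option autoImplicit false

open MeasureTheory Filter Set Topology
open scoped ENNReal symmDiff

namespace Pool.Agent.H942Z.Jump

/-- approximation lemma for maps with countable range -/
theorem tendsto_ne {α X Y Z : Type} [TopologicalSpace X] [MeasurableSpace X] [BorelSpace X]
    [R1Space X] [TopologicalSpace Y] [MeasurableSpace Y] [BorelSpace Y] [R1Space Y]
    {μ : Measure X} {ν : Measure Y} [μ.InnerRegularCompactLTTop] [IsFiniteMeasure ν]
    {l : Filter α} {f : α → C(X, Y)} {g : C(X, Y)} (hfg : Tendsto f l (𝓝 g))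
    (hf : ∀ a, MeasurePreserving (f a) μ ν) (hg : MeasurePreserving g μ ν)
    (Φ : Y → Z) (hc : (range Φ).Countable) (hm : ∀ c, MeasurableSet (Φ ⁻¹' {c})) :
    Tendsto (fun a => μ {x | Φ (f a x) ≠ Φ (g x)}) l (𝓝 0) := by
  rcases isEmpty_or_nonempty Y with hY | hY
  · have : IsEmpty X := ⟨fun x => hY.elim (g x)⟩
    have h0 : ∀ a, {x | Φ (f a x) ≠ Φ (g x)} = ∅ := fun a => Set.eq_empty_of_isEmpty _
    simp only [h0, measure_empty]
    exact tendsto_const_nhds
  obtain ⟨e, he⟩ := hc.exists_eq_range (range_nonempty Φ)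
  rw [ENNReal.tendsto_nhds_zero]
  intro ε hε
  have hε2 : 0 < ε / 2 := ENNReal.half_pos hε.ne'
  let D : ℕ → Set Y := fun N => {y | ∀ n < N, Φ y ≠ e n}
  have hDm : ∀ N, MeasurableSet (D N) := by
    intro N
    have : D N = ⋂ n ∈ {n | n < N}, (Φ ⁻¹' {e n})ᶜ := by
      ext y; simp [D]
    rw [this]
    exact MeasurableSet.biInter (Set.to_countable _) (fun n _ => (hm _).compl)
  have hD0 : Tendsto (fun N => ν (D N)) atTop (𝓝 0) := by
    have h1 : Tendsto (ν ∘ D) atTop (𝓝 (ν (⋂ N, D N))) :=
      tendsto_measure_iInter_atTop (fun N => (hDm N).nullMeasurableSet)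
        (fun a b hab y hy n hn => hy n (lt_of_lt_of_le hn hab)) ⟨0, measure_ne_top _ _⟩
    have h2 : ⋂ N, D N = ∅ := by
      ext y
      simp only [mem_iInter, mem_empty_iff_false, iff_false, not_forall]
      have : Φ y ∈ range e := he ▸ mem_range_self y
      obtain ⟨n, hn⟩ := this
      exact ⟨n + 1, fun h => h n (Nat.lt_succ_self n) hn.symm⟩
    rw [h2, measure_empty] at h1
    exact h1
  obtain ⟨N, hN⟩ := ((ENNReal.tendsto_nhds_zero.1 hD0) (ε / 2) hε2).exists
  have hs : Tendsto (fun a => ∑ n ∈ Finset.range N,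
      μ ((f a ⁻¹' (Φ ⁻¹' {e n})) ∆ (g ⁻¹' (Φ ⁻¹' {e n})))) l (𝓝 0) := by
    have := tendsto_finsetSum (Finset.range N) (fun n _ =>
      tendsto_measure_symmDiff_preimage_nhds_zero hfg (Eventually.of_forall hf) hg
        (hm (e n)).nullMeasurableSet (measure_ne_top _ _))
    simpa using this
  filter_upwards [(ENNReal.tendsto_nhds_zero.1 hs) (ε / 2) hε2] with a ha
  have hsub : {x | Φ (f a x) ≠ Φ (g x)} ⊆ g ⁻¹' (D N) ∪
      ⋃ n ∈ Finset.range N, (f a ⁻¹' (Φ ⁻¹' {e n})) ∆ (g ⁻¹' (Φ ⁻¹' {e n})) := by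
    intro x hx
    by_cases h : g x ∈ D N
    · exact Or.inl h
    · right
      simp only [D, mem_ofPred_eq, not_forall, not_not] at h
      obtain ⟨n, hn, hn2⟩ := h
      simp only [mem_iUnion, Finset.mem_range]
      refine ⟨n, hn, Or.inr ⟨hn2, fun h3 => hx ?_⟩⟩
      rw [hn2]; exact h3
  calc μ {x | Φ (f a x) ≠ Φ (g x)} ≤ μ (g ⁻¹' (D N)) + μ (⋃ n ∈ Finset.range N,
        (f a ⁻¹' (Φ ⁻¹' {e n})) ∆ (g ⁻¹' (Φ ⁻¹' {e n}))) :=
        (measure_mono hsub).trans (measure_union_le _ _)
    _ ≤ ε / 2 + ε / 2 := by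
        apply add_le_add
        · rw [hg.measure_preimage (hDm N).nullMeasurableSet]; exact hN
        · exact (measure_biUnion_finset_le _ _).trans ha
    _ = ε := ENNReal.add_halves ε

/-- Haar probability measure on `I → ZMod 2` -/
noncomputable def hm (I : Type) [Countable I] : Measure (I → ZMod 2) :=
  Measure.addHaarMeasure ⊤

instance (I : Type) [Countable I] : (hm I).IsAddHaarMeasure := by
  unfold hm; infer_instance

instance (I : Type) [Countable I] : IsProbabilityMeasure (hm I) := by
  constructor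
  have := Measure.addHaarMeasure_self (G := I → ZMod 2) (K₀ := ⊤)
  simpa [hm] using this

/-- restriction along `j` -/
def res {I J : Type} (j : I → J) : C(J → ZMod 2, I → ZMod 2) :=
  ⟨fun ω => ω ∘ j, continuous_pi (fun i => continuous_apply (j i))⟩

theorem res_mp {I J : Type} [Countable I] [Countable J] {j : I → J} (hj : Function.Injective j) :
    MeasurePreserving (res j) (hm J) (hm I) := by
  let F : (J → ZMod 2) →+ (I → ZMod 2) :=
    { toFun := fun ω => ω ∘ j, map_zero' := rfl, map_add' := fun _ _ => rfl }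
  exact AddMonoidHom.measurePreserving (f := F) (res j).continuous (hj.surjective_comp_right)
    (by simp)

theorem tendsto_of_coord {α X I : Type} [TopologicalSpace X] [CompactSpace X] {l : Filter α}
    {f : α → C(X, I → ZMod 2)} {g : C(X, I → ZMod 2)}
    (h : ∀ i, ∀ᶠ a in l, ∀ x, f a x i = g x i) : Tendsto f l (𝓝 g) := by
  rw [ContinuousMap.tendsto_nhds_compactOpen]
  intro K hK U hU hKU
  -- each point has a finite set of coordinates
  have h1 : ∀ x ∈ K, ∃ S : Finset I, ∀ y : I → ZMod 2, (∀ i ∈ S, y i = g x i) → y ∈ U := by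
    intro x hx
    obtain ⟨S, u, hu, hsub⟩ := isOpen_pi_iff.1 hU (g x) (hKU hx)
    refine ⟨S, fun y hy => hsub ?_⟩
    intro i hi
    rw [hy i hi]
    exact (hu i hi).2
  choose! S hS using h1
  let V : X → Set X := fun x => {x' | ∀ i ∈ S x, g x' i = g x i}
  have hV : ∀ x ∈ K, V x ∈ 𝓝 x := by
    intro x _
    have : V x = ⋂ i ∈ S x, {x' | g x' i = g x i} := by ext; simp [V]
    rw [this]
    refine (Filter.biInter_finset_mem _).2 (fun i _ => ?_)
    have hc : Continuous (fun x' => g x' i) := (continuous_apply i).comp g.continuous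
    exact (isOpen_discrete {g x i}).preimage hc |>.mem_nhds rfl
  obtain ⟨t, htK, ht⟩ := hK.elim_nhds_subcover V hV
  have h2 : ∀ᶠ a in l, ∀ x ∈ t, ∀ i ∈ S x, ∀ x', f a x' i = g x' i := by
    rw [Finset.eventually_all]
    intro x _
    rw [Finset.eventually_all]
    intro i _
    exact h i
  filter_upwards [h2] with a ha x' hx'
  obtain ⟨x, hx, hx2⟩ := mem_iUnion₂.1 (ht hx')
  refine hS x (htK x hx) _ (fun i hi => ?_)
  rw [ha x hx i hi x', hx2 i hi]

theorem hm_singleton (I : Type) [Countable I] [Infinite I] (y : I → ZMod 2) : hm I {y} = 0 := by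
  by_contra h
  have hall : ∀ z : I → ZMod 2, hm I {z} = hm I {y} := by
    intro z
    have := measure_preimage_add (hm I) (y - z) {y}
    rw [← this]
    congr 1
    ext w
    simp only [mem_singleton_iff, mem_preimage]
    constructor
    · rintro rfl; abel
    · intro h2
      have h5 : w = (y - z + w) - (y - z) := by abel
      rw [h5, h2]; abel
  classical
  have h3 : ∑' z : I, hm I {(Pi.single z 1 : I → ZMod 2)} ≤ hm I univ := by
    rw [← measure_iUnion]
    · exact measure_mono (subset_univ _)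
    · intro a b hab
      simp only [Function.onFun, disjoint_singleton]
      intro h4
      have := congrFun h4 a
      simp [hab] at this
    · intro a; exact measurableSet_singleton _
  simp only [hall] at h3
  rw [ENNReal.tsum_const_eq_top_of_ne_zero h] at h3
  exact absurd h3 (by simp)

end Pool.Agent.H942Z.Jump
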