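import Pool.Agent.H942Z.JumpA

set_option autoImplicit false

open MeasureTheory Filter Set Topology
open scoped ENNReal symmDiff

namespace Pool.Agent.H942Z.Jump

variable {G H : Type} [Group G] [Countable G] [Countable H]

/-- index map of the coordinatewise shift -/
def sh (γ : H → G) : H × G → H × G := fun p => (p.1, (γ p.1)⁻¹ * p.2)

omit [Countable G] [Countable H] in
theorem sh_inj (γ : H → G) : Function.Injective (sh γ) := by
  rintro ⟨a, b⟩ ⟨c, d⟩ h
  simp only [sh, Prod.mk.injEq] at h
  obtain ⟨rfl, h2⟩ := h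
  simp only [mul_right_inj] at h2
  rw [h2]

theorem stepA [Infinite G] [DecidableEq H] (ψ : (H × G → ZMod 2) → ℕ → Bool) (hψ : Measurable ψ)
    (P2 : ∀ ω ω', ψ ω = ψ ω' → ∀ h₀, ∃ h g, ∀ t, ω' (h₀, t) = ω (h, g * t)) (h₀ : H) :
    ∃ g : G, hm (H × G) {ω | ψ ω = ψ (res (sh (Pi.mulSingle h₀ g)) ω)} ≤ 3 / 4 := by
  classical
  let J := (H × G) ⊕ G
  let j1 : H × G → J := Sum.inl
  let j2 : H × G → J := fun p => if p.1 = h₀ then Sum.inr p.2 else Sum.inl p
  have hj1 : Function.Injective j1 := Sum.inl_injective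
  have hj2 : Function.Injective j2 := by
    rintro ⟨a, b⟩ ⟨c, d⟩ h
    simp only [j2] at h
    split_ifs at h with h1 h2 h2
    · obtain rfl : b = d := Sum.inr_injective h
      rw [h1, h2]
    · exact Sum.inl_injective h
  have hgS : ∀ S : Finset G, ∃ g : G, ∀ s ∈ S, g * s ∉ S := by
    intro S
    obtain ⟨g, hg⟩ := Infinite.exists_notMem_finset ((S ×ˢ S).image (fun p => p.1 * p.2⁻¹))
    refine ⟨g, fun s hs h => hg ?_⟩
    exact Finset.mem_image.2 ⟨(g * s, s), Finset.mem_product.2 ⟨h, hs⟩, by simp⟩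
  choose gS hgS using hgS
  let jS : Finset G → H × G → J := fun S p =>
    if p.1 = h₀ ∧ gS S * p.2 ∈ S then Sum.inr (gS S * p.2) else Sum.inl p
  have hjS : ∀ S, Function.Injective (jS S) := by
    rintro S ⟨a, b⟩ ⟨c, d⟩ h
    simp only [jS] at h
    split_ifs at h with h1 h2 h2
    · have h3 := Sum.inr_injective h
      simp only [mul_right_inj] at h3
      rw [h1.1, h2.1, h3]
    · exact Sum.inl_injective h
  let jT : Finset G → H × G → J := fun S => jS S ∘ sh (Pi.mulSingle h₀ (gS S))
  have hjT : ∀ S, Function.Injective (jT S) := fun S => (hjS S).comp (sh_inj _)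
  have c1 : Tendsto (fun S => res (jS S)) atTop (𝓝 (res j1)) := by
    apply tendsto_of_coord
    rintro ⟨a, b⟩
    filter_upwards [eventually_ge_atTop ({b} : Finset G)] with S hS x
    have hb : b ∈ S := hS (Finset.mem_singleton_self b)
    have : jS S (a, b) = j1 (a, b) := by
      simp only [jS, j1]
      rw [if_neg (fun h => hgS S b hb h.2)]
    show x (jS S (a, b)) = x (j1 (a, b))
    rw [this]
  have c2 : Tendsto (fun S => res (jT S)) atTop (𝓝 (res j2)) := by
    apply tendsto_of_coord
    rintro ⟨a, b⟩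
    filter_upwards [eventually_ge_atTop ({b} : Finset G)] with S hS x
    have hb : b ∈ S := hS (Finset.mem_singleton_self b)
    have : jT S (a, b) = j2 (a, b) := by
      simp only [jT, jS, j2, sh, Function.comp]
      by_cases ha : a = h₀
      · subst ha
        simp [hb]
      · simp [ha]
    show x (jT S (a, b)) = x (j2 (a, b))
    rw [this]
  -- the limit event is null
  have hnull : hm J {x | ψ (res j1 x) = ψ (res j2 x)} = 0 := by
    have hsub : {x | ψ (res j1 x) = ψ (res j2 x)} ⊆
        ⋃ q : H × G, {x : J → ZMod 2 | ∀ t, x (Sum.inr t) = x (Sum.inl (q.1, q.2 * t))} := by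
      intro x hx
      obtain ⟨h, g, hg⟩ := P2 _ _ hx h₀
      refine mem_iUnion.2 ⟨(h, g), fun t => ?_⟩
      have := hg t
      simpa [res, j1, j2] using this
    refine measure_mono_null hsub (measure_iUnion_null (fun q => ?_))
    let F : (J → ZMod 2) →+ (G → ZMod 2) :=
      { toFun := fun x t => x (Sum.inr t) - x (Sum.inl (q.1, q.2 * t))
        map_zero' := by ext; simp
        map_add' := by intro x y; ext t; simp only [Pi.add_apply]; abel }
    have hFc : Continuous F := by
      refine continuous_pi (fun t => ?_)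
      show Continuous (fun x : J → ZMod 2 => x (Sum.inr t) - x (Sum.inl (q.1, q.2 * t)))
      fun_prop
    have hFs : Function.Surjective F := by
      intro z
      refine ⟨Sum.elim (fun _ => 0) z, ?_⟩
      ext t
      simp [F]
    have hF : MeasurePreserving F (hm J) (hm G) :=
      AddMonoidHom.measurePreserving hFc hFs (by simp)
    have := hF.measure_preimage (measurableSet_singleton (0 : G → ZMod 2)).nullMeasurableSet
    rw [hm_singleton] at this
    rw [← this]
    congr 1
    ext x
    simp only [mem_ofPred_eq, mem_preimage, mem_singleton_iff, funext_iff, F, AddMonoidHom.coe_mk,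
      ZeroHom.coe_mk, Pi.zero_apply, sub_eq_zero]
  have m1 : Measurable (fun x => ψ (res j1 x)) := hψ.comp (res j1).continuous.measurable
  have m2 : Measurable (fun x => ψ (res j2 x)) := hψ.comp (res j2).continuous.measurable
  let D : ℕ → Set (J → ZMod 2) := fun N => {x | ∀ n < N, ψ (res j1 x) n = ψ (res j2 x) n}
  have hDm : ∀ N, MeasurableSet (D N) := by
    intro N
    have : D N = ⋂ n ∈ {n | n < N}, {x | ψ (res j1 x) n = ψ (res j2 x) n} := by
      ext y; simp [D]
    rw [this]
    exact MeasurableSet.biInter (Set.to_countable _) (fun n _ =>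
      measurableSet_eq_fun ((measurable_pi_apply n).comp m1) ((measurable_pi_apply n).comp m2))
  have hD0 : Tendsto (fun N => hm J (D N)) atTop (𝓝 0) := by
    have h1 : Tendsto (hm J ∘ D) atTop (𝓝 (hm J (⋂ N, D N))) :=
      tendsto_measure_iInter_atTop (fun N => (hDm N).nullMeasurableSet)
        (fun a b hab y hy n hn => hy n (lt_of_lt_of_le hn hab)) ⟨0, measure_ne_top _ _⟩
    have h2 : ⋂ N, D N = {x | ψ (res j1 x) = ψ (res j2 x)} := by
      ext y
      simp only [mem_iInter, D, mem_ofPred_eq, funext_iff]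
      exact ⟨fun h n => h (n + 1) n (Nat.lt_succ_self n), fun h _ n _ => h n⟩
    rw [h2, hnull] at h1
    exact h1
  have hq : (0 : ℝ≥0∞) < 1 / 4 := by simp
  obtain ⟨N, hN⟩ := ((ENNReal.tendsto_nhds_zero.1 hD0) (1 / 4) hq).exists
  let Φ : (H × G → ZMod 2) → Fin N → Bool := fun ω n => ψ ω n
  have hΦ : Measurable Φ := measurable_pi_lambda _ (fun n => (measurable_pi_apply _).comp hψ)
  have hΦm : ∀ c, MeasurableSet (Φ ⁻¹' {c}) := fun c => hΦ (measurableSet_singleton c)
  have t1 := tendsto_ne (μ := hm J) (ν := hm (H × G)) c1 (fun S => res_mp (hjS S)) (res_mp hj1) Φ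
    (Set.to_countable _) hΦm
  have t2 := tendsto_ne (μ := hm J) (ν := hm (H × G)) c2 (fun S => res_mp (hjT S)) (res_mp hj2) Φ
    (Set.to_countable _) hΦm
  obtain ⟨S, hS1, hS2⟩ := (((ENNReal.tendsto_nhds_zero.1 t1) (1 / 4) hq).and
    ((ENNReal.tendsto_nhds_zero.1 t2) (1 / 4) hq)).exists
  refine ⟨gS S, ?_⟩
  have mE : MeasurableSet {ω | ψ ω = ψ (res (sh (Pi.mulSingle h₀ (gS S))) ω)} :=
    measurableSet_eq_fun hψ (hψ.comp (res _).continuous.measurable)
  rw [← (res_mp (hjS S)).measure_preimage mE.nullMeasurableSet]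
  have hsub : res (jS S) ⁻¹' {ω | ψ ω = ψ (res (sh (Pi.mulSingle h₀ (gS S))) ω)} ⊆
      (D N ∪ {x | Φ (res (jS S) x) ≠ Φ (res j1 x)}) ∪ {x | Φ (res (jT S) x) ≠ Φ (res j2 x)} := by
    intro x hx
    by_contra hc
    simp only [mem_union, mem_ofPred_eq, not_or, not_not] at hc
    obtain ⟨⟨h1, h2⟩, h3⟩ := hc
    apply h1
    intro n hn
    have e1 : ψ (res (jS S) x) n = ψ (res j1 x) n := congrFun h2 ⟨n, hn⟩
    have e2 : ψ (res (jT S) x) n = ψ (res j2 x) n := congrFun h3 ⟨n, hn⟩
    have e3 : ψ (res (jS S) x) = ψ (res (jT S) x) := hx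
    rw [← e1, ← e2, e3]
  refine (measure_mono hsub).trans ((measure_union_le _ _).trans ?_)
  refine (add_le_add ((measure_union_le _ _).trans (add_le_add hN hS1)) hS2).trans (le_of_eq ?_)
  rw [ENNReal.div_add_div_same, ENNReal.div_add_div_same]
  norm_num

theorem stepB [DecidableEq H] {Z : Type} (Φ : (H → ZMod 2) → Z) (hc : (range Φ).Countable)
    (hΦ : ∀ c, MeasurableSet (Φ ⁻¹' {c})) {e : ℕ → H} (he : Function.Injective e) :
    Tendsto (fun n => hm H {ε | Φ (Pi.single (e n) 1 + ε) ≠ Φ ε}) atTop (𝓝 0) := by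
  let f : ℕ → C(H → ZMod 2, H → ZMod 2) := fun n =>
    ⟨fun ε => Pi.single (e n) 1 + ε, continuous_const.add continuous_id⟩
  have c : Tendsto f atTop (𝓝 (ContinuousMap.id _)) := by
    apply tendsto_of_coord
    intro h
    have h1 : ∀ᶠ n in atTop, e n ≠ h := by
      rw [← Nat.cofinite_eq_atTop]
      exact he.tendsto_cofinite.eventually (eventually_cofinite_ne h)
    filter_upwards [h1] with n hn x
    show (Pi.single (e n) 1 : H → ZMod 2) h + x h = x h
    rw [Pi.single_eq_of_ne hn.symm, zero_add]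
  exact tendsto_ne (μ := hm H) (ν := hm H) c (fun n => measurePreserving_add_left _ _)
    (MeasurePreserving.id _) Φ hc hΦ

theorem key [Infinite G] [Infinite H] (ψ : (H × G → ZMod 2) → ℕ → Bool) (hψ : Measurable ψ)
    (P1 : ∀ ω, (range (fun γ : H → G => ψ (res (sh γ) ω))).Countable)
    (P2 : ∀ ω ω', ψ ω = ψ ω' → ∀ h₀, ∃ h g, ∀ t, ω' (h₀, t) = ω (h, g * t)) : False := by
  classical
  choose g hg using stepA ψ hψ P2
  let γ : (H → ZMod 2) → H → G := fun ε h => if ε h = 0 then 1 else g h
  let T : (H → ZMod 2) × (H × G → ZMod 2) → (H × G → ZMod 2) := fun p => res (sh (γ p.1)) p.2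
  have hT : Measurable T := by
    refine measurable_pi_lambda _ (fun q => ?_)
    have : (fun p : (H → ZMod 2) × (H × G → ZMod 2) => T p q) =
        fun p => if p.1 q.1 = 0 then p.2 (q.1, q.2) else p.2 (q.1, (g q.1)⁻¹ * q.2) := by
      ext p
      simp only [T, res, sh, γ, ContinuousMap.coe_mk, Function.comp]
      split_ifs <;> simp
    rw [this]
    refine Measurable.ite ?_ ((measurable_pi_apply _).comp measurable_snd)
      ((measurable_pi_apply _).comp measurable_snd)
    exact ((measurable_pi_apply q.1).comp measurable_fst) (measurableSet_singleton 0)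
  let e : ℕ → H := Infinite.natEmbedding H
  have he : Function.Injective e := (Infinite.natEmbedding H).injective
  let W : ℕ → Set ((H → ZMod 2) × (H × G → ZMod 2)) := fun n =>
    {p | ψ (T (Pi.single (e n) 1 + p.1, p.2)) ≠ ψ (T p)}
  have hW : ∀ n, MeasurableSet (W n) := by
    intro n
    refine (measurableSet_eq_fun (hψ.comp (hT.comp ?_)) (hψ.comp hT)).compl
    exact (measurable_fst.const_add _).prodMk measurable_snd
  have lower : ∀ n, 1 / 4 ≤ (hm H).prod (hm (H × G)) (W n) := by
    intro n
    rw [Measure.prod_apply (hW n)]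
    have mE : MeasurableSet {ω | ψ ω = ψ (res (sh (Pi.mulSingle (e n) (g (e n)))) ω)} :=
      measurableSet_eq_fun hψ (hψ.comp (res _).continuous.measurable)
    have hc : 1 / 4 ≤ hm (H × G) {ω | ψ ω = ψ (res (sh (Pi.mulSingle (e n) (g (e n)))) ω)}ᶜ := by
      rw [prob_compl_eq_one_sub mE]
      refine le_trans (le_of_eq ?_) (tsub_le_tsub_left (hg (e n)) 1)
      symm
      apply ENNReal.sub_eq_of_eq_add (by simp [ENNReal.div_eq_top])
      rw [ENNReal.div_add_div_same]
      norm_num
      exact (ENNReal.div_self (by norm_num) (by norm_num)).symm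
    have hflip : ∀ (ε : H → ZMod 2), ε (e n) = 0 → ∀ ω,
        T (Pi.single (e n) 1 + ε, ω) = res (sh (Pi.mulSingle (e n) (g (e n)))) (T (ε, ω)) := by
      intro ε hε ω
      ext q
      simp only [T, res, sh, γ, ContinuousMap.coe_mk, Function.comp]
      by_cases hq : q.1 = e n
      · simp [hq, hε]
      · have e1 : (Pi.single (e n) 1 + ε : H → ZMod 2) q.1 = ε q.1 := by
          rw [Pi.add_apply, Pi.single_eq_of_ne hq, zero_add]
        simp only [e1, Pi.mulSingle_eq_of_ne hq, inv_one, one_mul]
    have hpt : ∀ ε : H → ZMod 2, 1 / 4 ≤ hm (H × G) (Prod.mk ε ⁻¹' W n) := by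
      intro ε
      by_cases hε : ε (e n) = 0
      · rw [← (res_mp (sh_inj (γ ε))).measure_preimage mE.compl.nullMeasurableSet] at hc
        refine hc.trans (le_of_eq ?_)
        congr 1
        ext ω
        simp only [W, mem_preimage, mem_compl_iff, mem_ofPred_eq, hflip ε hε]
        exact not_congr eq_comm
      · have h1 : ε (e n) = 1 := by
          revert hε; generalize ε (e n) = z; revert z; decide
        have h2 : (Pi.single (e n) 1 + ε : H → ZMod 2) (e n) = 0 := by
          simp only [Pi.add_apply, Pi.single_eq_same, h1]; decide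
        have h3 : (Pi.single (e n) 1 + (Pi.single (e n) 1 + ε) : H → ZMod 2) = ε := by
          rw [← add_assoc, ← Pi.single_add]
          have : (1 + 1 : ZMod 2) = 0 := by decide
          rw [this, Pi.single_zero, zero_add]
        rw [← (res_mp (sh_inj (γ (Pi.single (e n) 1 + ε)))).measure_preimage
          mE.compl.nullMeasurableSet] at hc
        refine hc.trans (le_of_eq ?_)
        congr 1
        ext ω
        have h4 := hflip _ h2 ω
        rw [h3] at h4
        simp only [W, mem_preimage, mem_compl_iff, mem_ofPred_eq, h4]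
        rfl
    calc (1 / 4 : ℝ≥0∞) = ∫⁻ _ε, 1 / 4 ∂(hm H) := by simp
      _ ≤ _ := lintegral_mono hpt
  have upper : Tendsto (fun n => (hm H).prod (hm (H × G)) (W n)) atTop (𝓝 0) := by
    have h1 : ∀ n, (hm H).prod (hm (H × G)) (W n) =
        ∫⁻ ω, hm H ((fun ε => (ε, ω)) ⁻¹' W n) ∂(hm (H × G)) :=
      fun n => Measure.prod_apply_symm (hW n)
    simp only [h1]
    have h2 := tendsto_lintegral_filter_of_dominated_convergence (μ := hm (H × G)) (l := atTop)
      (F := fun n ω => hm H ((fun ε => (ε, ω)) ⁻¹' W n)) (f := fun _ => 0) (fun _ => 1)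
      (Eventually.of_forall (fun n => measurable_measure_prodMk_right (hW n)))
      (Eventually.of_forall (fun n => Eventually.of_forall (fun ω => prob_le_one)))
      (by simp) (Eventually.of_forall (fun ω => ?_))
    · simpa using h2
    · have hm1 : Measurable (fun ε : H → ZMod 2 => ψ (T (ε, ω))) :=
        hψ.comp (hT.comp measurable_prodMk_right)
      refine stepB (fun ε => ψ (T (ε, ω))) ((P1 ω).mono ?_)
        (fun c => hm1 (measurableSet_singleton c)) he
      rintro _ ⟨ε, rfl⟩
      exact ⟨γ ε, rfl⟩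
  have := ge_of_tendsto' upper lower
  simp at this

end Pool.Agent.H942Z.Jump
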